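import Pool.Agent.Run7.h91.SP.Main

/-!
# Zeros of the L-function of an elliptic curve and sums over primes sampled along a geometric progression

`E : y² = x³ + a x + b` is an elliptic curve over `ℚ` of conductor `N`, `Λ` its completed L-function, and

  `S(x) = x ∑_p a_p log p / (p² + x²)`,   `p` prime, `p ∤ 2 (4a³ + 27b²)`.

Fix ANY real `q > 1` and any lengths `ℓ(K)` with `ℓ(K) ≥ K^(1 - δ)` for every `δ > 0` and all large `K`, for example
`ℓ(K) = K / log K`. We prove unconditionally: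

* (large values in every window) if `ρ` is a zero of `Λ` off the line `Re s = 1`, then for every `ε > 0` EVERY window
  `[K, K + ℓ(K)]`, `K` large, contains an integer `n` with `|S(q^n)| ≥ (q^n)^(|Re ρ - 1| - ε)`;
* (recovery from windows) all zeros lie in `|Re s - 1| ≤ θ` if and only if for every `ε > 0` there are arbitrarily large
  `K` such that `|S(q^n)| ≤ (q^n)^(θ + ε)` for all `n` in `[K, K + ℓ(K)]`. For `θ = 0` this is the Riemann hypothesis
  for `L(E, s)`;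
* (upper bound) if all zeros lie in `|Re s - 1| ≤ θ`, then `S(x) = O(x^(θ + ε))` for every `ε > 0`.

So the Riemann hypothesis for `L(E, s)` is decided by the values of ONE smooth sum at the points `q^n` of a fixed
geometric progression, and of these points only those with `n` in arbitrarily late and arbitrarily rare windows, which are
of length `K^(1 - o(1))` only. Note that at the points `q^n` the zeros `ρ` and `ρ + 2π i k / log q` cannot be told apart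
by their powers.

Proof (modules `Pool.Agent.Run7.h91.SP`). The explicit formula with the kernel `π / (2 cos(π z / 2))` gives
`S(x) = - ∑_ρ m_ρ (π / 2) x^(ρ - 1) / cos(π (ρ - 1) / 2) + O(x^δ)`. A linear combination of the sampled values in a
window, whose coefficients come from a partial fraction identity (an interpolation problem in the style of the power sum
method), isolates one residue class modulo `2π i / log q` among the zeros with real part at least `1 + β - ε` up to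
height `O(K)`; there are only `O(K^(1 - κ))` of them by the density theorem for these L-functions of the starting tree
(helper24, helper671, helper771, helper838). The total coefficient of a residue class is not zero, since
`π / (2 cos(π z / 2))` has positive real part for `|Re z| < 1`.
-/

set_option autoImplicit false

open Complex UpperHalfPlane MatrixGroups CongruenceSubgroup Filter

namespace Pool.Agent.Results.MP_553913_nt.GeometricSampling

/-- The coefficient `a_p` of `E : y² = x³ + a x + b` at a prime `p ∤ 2 (4a³ + 27b²)`: `p` minus the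
number of pairs `(x, y)` modulo `p` with `y² ≡ x³ + a x + b (mod p)`. -/
noncomputable def ap (a b : ℤ) (p : ℕ) : ℤ :=
  (p : ℤ) - (((Finset.range p ×ˢ Finset.range p).filter
    (fun xy : ℕ × ℕ => (p : ℤ) ∣ (xy.2 : ℤ) ^ 2 -
      ((xy.1 : ℤ) ^ 3 + a * (xy.1 : ℤ) + b))).card : ℤ)

/-- The `n`-th Fourier coefficient of `f`. -/
noncomputable def coef {N : ℕ} (f : CuspForm (Gamma0 N : Subgroup (GL (Fin 2) ℝ)) 2) (n : ℕ) : ℂ :=
  (qExpansion 1 f).coeff n

/-- `f ∈ S_2(Γ₀(N))` is the newform of the elliptic curve `E : y² = x³ + a x + b` of conductor `N` and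
root number `w`: the Fourier coefficients `c(n)` of `f` are real with `c(1) = 1`, they satisfy the
Hecke relations `c(mn) = c(m) c(n)` for coprime `m`, `n` and `c(p^(j+2)) = c(p) c(p^(j+1)) - p c(p^j)`
(without the last term if `p ∣ N`), `f(-1/(Nτ)) = -w N τ² f(τ)`, `c(p) = a_p(E)` for all primes
`p ∤ 2 (4a³ + 27b²)`, `|c(p)| ≤ 2 √p` for all `p ∤ N` (Hasse) and `c(p) = 0, 1, -1` for `p ∣ N`.
By the modularity theorem (Wiles, Taylor-Wiles, Breuil-Conrad-Diamond-Taylor) it exists for every `E`. -/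
structure IsFormOf (a b : ℤ) (N : ℕ) (f : CuspForm (Gamma0 N : Subgroup (GL (Fin 2) ℝ)) 2) (w : ℝ) :
    Prop where
  one : coef f 1 = 1
  real : ∀ n, (coef f n).im = 0
  mul : ∀ m n : ℕ, Nat.Coprime m n → coef f (m * n) = coef f m * coef f n
  pow : ∀ p j : ℕ, p.Prime → coef f (p ^ (j + 2)) = coef f p * coef f (p ^ (j + 1)) -
      (if p ∣ N then 0 else (p : ℂ) * coef f (p ^ j))
  sign : w = 1 ∨ w = -1
  fricke : ∀ τ τ' : ℍ, (τ' : ℂ) * ((N : ℂ) * (τ : ℂ)) = -1 →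
    f τ' = -(w : ℂ) * (N : ℂ) * (τ : ℂ) ^ 2 * f τ
  points : ∀ p : ℕ, p.Prime → ¬ (p : ℤ) ∣ 2 * (4 * a ^ 3 + 27 * b ^ 2) → coef f p = (ap a b p : ℂ)
  good : ∀ p : ℕ, p.Prime → ¬ p ∣ N → ‖coef f p‖ ≤ 2 * Real.sqrt p
  bad : ∀ p : ℕ, p.Prime → p ∣ N → coef f p = 0 ∨ coef f p = 1 ∨ coef f p = -1

/-- `Λ` is the completed L-function of `f`: it is entire and
`Λ(s) = N^(s/2) (2π)^(-s) Γ(s) ∑ c(n) n^(-s)` for `Re s > 2`. -/
def IsCompleted {N : ℕ} (f : CuspForm (Gamma0 N : Subgroup (GL (Fin 2) ℝ)) 2) (Λ : ℂ → ℂ) : Prop :=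
  Differentiable ℂ Λ ∧ ∀ s : ℂ, 2 < s.re →
    Λ s = ((Real.sqrt N / (2 * Real.pi) : ℝ) : ℂ) ^ s * Complex.Gamma s *
      ∑' n : ℕ, coef f (n + 1) * ((n + 1 : ℕ) : ℂ) ^ (-s)

/-- `S(x) = x ∑_p a_p log p / (p² + x²)`, the sum over the primes `p ∤ 2 (4a³ + 27b²)`. -/
noncomputable def S (a b : ℤ) (x : ℝ) : ℝ :=
  x * ∑' p : ℕ, if p.Prime ∧ ¬ (p : ℤ) ∣ 2 * (4 * a ^ 3 + 27 * b ^ 2) then
    (ap a b p : ℝ) * Real.log p / ((p : ℝ) ^ 2 + x ^ 2) else 0

/-- the windows `[K, K + ℓ K]` have length at least `K^(1 - o(1))` -/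
def Long (ℓ : ℕ → ℕ) : Prop := ∀ δ : ℝ, 0 < δ → ∀ᶠ K : ℕ in atTop, (K : ℝ) ^ (1 - δ) ≤ ℓ K

/-- **Main theorem.** Let `E : y² = x³ + a x + b` be an elliptic curve over `ℚ`, `Λ` its completed L-function, and
`S(x) = x ∑_p a_p log p / (p² + x²)`. Let `q > 1` be real and let the windows `[K, K + ℓ(K)]` have length
`≥ K^(1 - o(1))`. For every zero `ρ` off the line `Re s = 1` and `ε > 0`, every window with `K` large contains `n` with
`|S(q^n)| ≥ (q^n)^(|Re ρ - 1| - ε)`. For `θ ≥ 0`, all zeros lie in `|Re s - 1| ≤ θ` if and only if for every `ε > 0`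
there are arbitrarily large `K` with `|S(q^n)| ≤ (q^n)^(θ + ε)` for all `n` in `[K, K + ℓ(K)]`; in that case
`S(x) = O(x^(θ + ε))`. -/
theorem result (a b : ℤ) (N : ℕ) [NeZero N] (f : CuspForm (Gamma0 N : Subgroup (GL (Fin 2) ℝ)) 2) (w : ℝ)
    (_ : 4 * a ^ 3 + 27 * b ^ 2 ≠ 0) (hf : IsFormOf a b N f w) :
    ∃ Λ : ℂ → ℂ, IsCompleted f Λ ∧ (∀ Λ', IsCompleted f Λ' → Λ' = Λ) ∧
      (∀ s : ℂ, Λ (2 - s) = (w : ℂ) * Λ s) ∧
      (∀ (q : ℝ) (ℓ : ℕ → ℕ), 1 < q → Long ℓ →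
        (∀ ρ : ℂ, Λ ρ = 0 → ∀ ε : ℝ, 0 < ε → ε < |ρ.re - 1| → ∀ᶠ K : ℕ in atTop,
          ∃ n : ℕ, K ≤ n ∧ n ≤ K + ℓ K ∧ (q ^ n) ^ (|ρ.re - 1| - ε) ≤ |S a b (q ^ n)|) ∧
        (∀ θ : ℝ, 0 ≤ θ →
          ((∀ s : ℂ, Λ s = 0 → |s.re - 1| ≤ θ) ↔
            ∀ ε : ℝ, 0 < ε → ∃ᶠ K : ℕ in atTop, ∀ n : ℕ, K ≤ n → n ≤ K + ℓ K →
              |S a b (q ^ n)| ≤ (q ^ n) ^ (θ + ε)))) ∧
      (∀ θ : ℝ, 0 ≤ θ → (∀ s : ℂ, Λ s = 0 → |s.re - 1| ≤ θ) → ∀ ε : ℝ, 0 < ε →
        ∃ C : ℝ, 0 < C ∧ ∀ x : ℝ, 1 ≤ x → |S a b x| ≤ C * x ^ (θ + ε)) := by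
  rename_i _ h27
  have hf' : Pool.Agent.W169.HF.IsForm N f w :=
    { one := hf.one
      real := hf.real
      mul := hf.mul
      pow := hf.pow
      sign := hf.sign
      fricke := hf.fricke
      good := hf.good
      bad := fun p hp hpN => by
        have h1 : (1 : ℝ) ≤ Real.sqrt p := by
          rw [Real.one_le_sqrt]
          exact_mod_cast hp.one_le
        have h2 : ‖coef f p‖ ≤ 1 := by
          rcases hf.bad p hp hpN with h | h | h <;> simp [h]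
        exact h2.trans h1 }
  obtain ⟨Λ, hΛ, hfe, -, -⟩ := Pool.Agent.W174.HF.nf1 N f w hf'
  obtain ⟨X, v, c, hX⟩ := Pool.Agent.Run7.h91.SP.exists_fam (ι := Unit) (fun _ => 1) (fun _ => 1)
    (fun _ => DirichletCharacter.isPrimitive_one_level_one) (fun _ => Nat.coprime_one_left N) hf'
  obtain ⟨X2, v2, c2, hX2⟩ := Pool.Agent.Run7.h91.SP.exists_fam (ι := Unit) (fun _ => 1)
    (fun _ => (1 : DirichletCharacter ℂ 1)⁻¹) (fun _ => by
      rw [inv_one]; exact DirichletCharacter.isPrimitive_one_level_one) (fun _ => Nat.coprime_one_left N) hf'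
  have hfac : ∀ s : ℂ, 3 / 2 < s.re → X (s - 1) = v * (((Real.sqrt N / (2 * Real.pi) : ℝ) : ℂ) ^ s *
      Complex.Gamma s * ∑' n : ℕ, coef f (n + 1) * ((n + 1 : ℕ) : ℂ) ^ (-s)) := by
    intro s hs
    have h3 := hX.eq s hs
    simp only [Finset.univ_unique, Finset.prod_singleton] at h3
    rw [h3]
    unfold Pool.Agent.W355.UN.facE
    rw [Nat.cast_one, mul_one]
    congr 2
    refine tsum_congr fun n => ?_
    rw [MulChar.one_apply (isUnit_of_subsingleton _), mul_one]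
    rfl
  have hΛX : ∀ s, Λ s = 0 ↔ X (s - 1) = 0 := by
    have e2 : Λ = fun s => v⁻¹ * X (s - 1) := by
      refine Pool.Agent.R838.TW.uniq (G := fun s => ((Real.sqrt N / (2 * Real.pi) : ℝ) : ℂ) ^ s * Complex.Gamma s *
        ∑' n : ℕ, coef f (n + 1) * ((n + 1 : ℕ) : ℂ) ^ (-s)) ?_ hΛ.1 ⟨3 / 2, fun s hs => ?_⟩ ⟨2, hΛ.2⟩
      · have h5 : Differentiable ℂ fun s : ℂ => X (s - 1) := hX.pl.diff.comp (by fun_prop)
        exact h5.const_mul _
      · rw [hfac s hs, inv_mul_cancel_left₀ hX.hv]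
    intro s
    rw [e2]
    beta_reduce
    rw [mul_eq_zero, or_iff_right (inv_ne_zero hX.hv)]
  have hD : (2 * (4 * a ^ 3 + 27 * b ^ 2)).natAbs ≠ 0 := by
    rw [Int.natAbs_ne_zero]
    exact mul_ne_zero two_ne_zero h27
  have hg : ∀ n : ℕ, (n.Prime ∧ ¬ (n : ℤ) ∣ 2 * (4 * a ^ 3 + 27 * b ^ 2)) → n.Prime := fun n h => h.1
  have hg1 : ∀ p : ℕ, (p.Prime ∧ ¬ (p : ℤ) ∣ 2 * (4 * a ^ 3 + 27 * b ^ 2)) →
      Pool.Agent.W169.HF.coef f p = (((ap a b p : ℝ) : ℝ) : ℂ) := fun p h => by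
    have h1 := hf.points p h.1 h.2
    rw [Complex.ofReal_intCast]
    exact h1
  have hg1' : ∀ p : ℕ, (p.Prime ∧ ¬ (p : ℤ) ∣ 2 * (4 * a ^ 3 + 27 * b ^ 2)) →
      ∑ _i : Unit, (1 : DirichletCharacter ℂ 1) (p : ZMod 1) = (Fintype.card Unit : ℂ) := fun p _ => by
    simp [MulChar.one_apply (isUnit_of_subsingleton _)]
  have hg2 : ∀ p : ℕ, p.Prime → ¬ p ∣ (2 * (4 * a ^ 3 + 27 * b ^ 2)).natAbs →
      ¬ (p.Prime ∧ ¬ (p : ℤ) ∣ 2 * (4 * a ^ 3 + 27 * b ^ 2)) →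
      ∑ _i : Unit, (1 : DirichletCharacter ℂ 1) (p : ZMod 1) = 0 := fun p hp h1 h2 =>
    absurd ⟨hp, fun h3 => h1 (Int.natCast_dvd.1 h3)⟩ h2
  refine ⟨Λ, hΛ, fun Λ' h' => Pool.Agent.W169.HF.completed_unique h' hΛ, hfe, fun q ℓ hq hℓ => ⟨?_, ?_⟩, ?_⟩
  · intro ρ hρ ε hε hερ
    exact hX.lower hf' hX2 hD hg hg1 hg1' hg2 hΛX hq hℓ hρ hε hερ
  · intro θ hθ
    exact hX.equiv hf' hX2 hD hg hg1 hg1' hg2 hΛX hq hℓ hθ
  · intro θ hθ hz ε hε
    exact hX.upper hD hg hg1 hg1' hg2 hΛX hθ hz hε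

end Pool.Agent.Results.MP_553913_nt.GeometricSampling
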