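import Pool.Agent.Run7.h114.CA.EQ
import Pool.Agent.Run7.h114.CA.WS
import Pool.Agent.Run7.h336.CB.B22

set_option autoImplicit false
set_option maxHeartbeats 2000000

/-!
# MP_553913_nt: entire functions with all zeros simple and on the line, built from finitely many `a_p`, which converge
# to the L-function of an elliptic curve if and only if the Riemann hypothesis holds for it and its zeros are simple

Let `E : y² = x³ + a x + b` be an elliptic curve over `ℚ` of conductor `N`, of any rank, `Λ(s)` its completed L-function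
and `Ξ(z) = Λ(1 + i z)`.  For `r > 0` let `W r` be Weil's quadratic form of `L(E, s)` on the functions supported in
`[-r, r]`:

`W r g = (1/π) ∫ (log (√N / 2π) + Re ψ(1 + i x)) |g^(x)|² dx - 2 Re ∑_{n ≤ e^(2 r)} t(n)/n ∫ g(x + log n) conj g(x) dx`,

`ψ` the digamma function, `-L'/L(s) = ∑ t(n) n^(-s)`, so `t(p) = a_p log p`; no zero of `Λ` enters.  Let `S` be any
window (a compact set of real numbers with `-S = S` and with an interior point) without zeros of `Ξ`; such windows
exist.  We minimise `W r` relative to the mass `∫_S |g^(t)|² dt`.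

RESULT: for every `r > 0` the Fourier transforms of the minimisers are the multiples `p E_r` of one entire function `E_r`
by the polynomials `p` of degree less than `d_r`.  `E_r` is real on the real line, even or odd, and ALL ITS ZEROS ARE
REAL AND SIMPLE.  The lowest quotient `low r` is at most `exp (-c e^r)`, `c < 4 π / √N`, for large `r`; and
* the Riemann hypothesis for `L(E, s)` holds (all zeros of `Ξ` are real) if and only if `low r ≥ 0` for all `r`, if and
  only if `low r → 0`, if and only if `E_r(z) / E_r(i)` converges locally uniformly to a function that vanishes at the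
  zeros of `Ξ`; otherwise `low r ≤ -exp (c e^r / r)` for some `c > 0` and all large `r`;
* the Riemann hypothesis holds and all zeros of `Λ` are simple if and only if `E_r(z) / E_r(i) → Ξ(z) / Ξ(i)` locally
  uniformly;
* under the Riemann hypothesis the limit exists, it has simple zeros exactly at the zeros of `Ξ`, and in every disc the
  zeros of `E_r` correspond one to one to the distinct zeros of `Ξ`, up to `exp (-c e^r)`, `c < 2 π / √N`; if moreover
  all zeros are simple then `low r > 0` and the minimiser is unique up to a factor for large `r`.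
-/

namespace Pool.Agent.Results.MP_553913_nt.GroundStatesConverge

open Complex MatrixGroups CongruenceSubgroup
open UpperHalfPlane hiding I
open scoped ComplexConjugate
open Pool.Agent.Run7.h336.CB.S (Full Window RealZeros F)
open Pool.Agent.Run7.h114.CA.HkT (lder)

/-- The coefficient `a_p` of `E : y² = x³ + a x + b` at a prime `p ∤ 2 (4a³ + 27b²)`: `p` minus the
number of pairs `(x, y)` modulo `p` with `y² ≡ x³ + a x + b (mod p)`. -/
noncomputable def ap (a b : ℤ) (p : ℕ) : ℤ :=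
  (p : ℤ) - (((Finset.range p ×ˢ Finset.range p).filter
    (fun xy : ℕ × ℕ => (p : ℤ) ∣ (xy.2 : ℤ) ^ 2 -
      ((xy.1 : ℤ) ^ 3 + a * (xy.1 : ℤ) + b))).card : ℤ)

/-- The `n`-th Fourier coefficient of `f`. -/
noncomputable def coef {N : ℕ} (f : CuspForm (Gamma0 N : Subgroup (GL (Fin 2) ℝ)) 2) (n : ℕ) : ℂ :=
  (qExpansion 1 f).coeff n

/-- `f ∈ S_2(Γ₀(N))` is the newform of the elliptic curve `E : y² = x³ + a x + b` of conductor `N` and
root number `w`: the Fourier coefficients `c(n)` of `f` are real with `c(1) = 1`, they satisfy the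
Hecke relations `c(mn) = c(m) c(n)` for coprime `m`, `n` and `c(p^(j+2)) = c(p) c(p^(j+1)) - p c(p^j)`
(without the last term if `p ∣ N`), `f(-1/(Nτ)) = -w N τ² f(τ)`, and `c(p) = a_p(E)` for all primes
`p ∤ 2 (4a³ + 27b²)`.
By the modularity theorem (Wiles, Taylor-Wiles, Breuil-Conrad-Diamond-Taylor) it exists for every `E`. -/
structure IsFormOf (a b : ℤ) (N : ℕ) (f : CuspForm (Gamma0 N : Subgroup (GL (Fin 2) ℝ)) 2) (w : ℝ) :
    Prop where
  one : coef f 1 = 1
  real : ∀ n, (coef f n).im = 0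
  mul : ∀ m n : ℕ, Nat.Coprime m n → coef f (m * n) = coef f m * coef f n
  pow : ∀ p j : ℕ, p.Prime → coef f (p ^ (j + 2)) = coef f p * coef f (p ^ (j + 1)) -
      (if p ∣ N then 0 else (p : ℂ) * coef f (p ^ j))
  sign : w = 1 ∨ w = -1
  fricke : ∀ τ τ' : ℍ, (τ' : ℂ) * ((N : ℂ) * (τ : ℂ)) = -1 →
    f τ' = -(w : ℂ) * (N : ℂ) * (τ : ℂ) ^ 2 * f τ
  points : ∀ p : ℕ, p.Prime → ¬ (p : ℤ) ∣ 2 * (4 * a ^ 3 + 27 * b ^ 2) → coef f p = (ap a b p : ℂ)

/-- `Λ` is the completed L-function of `E`: it is entire and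
`Λ(s) = (√N / 2π)^s Γ(s) ∑ c(n) n^(-s)` for `Re s > 2`. -/
def IsCompleted {N : ℕ} (f : CuspForm (Gamma0 N : Subgroup (GL (Fin 2) ℝ)) 2) (Λ : ℂ → ℂ) : Prop :=
  Differentiable ℂ Λ ∧ ∀ s : ℂ, 2 < s.re →
    Λ s = ((Real.sqrt N / (2 * Real.pi) : ℝ) : ℂ) ^ s * Complex.Gamma s *
      ∑' n : ℕ, coef f (n + 1) * ((n + 1 : ℕ) : ℂ) ^ (-s)

/-- `Ξ(z) = Λ(1 + i z)`. -/
noncomputable def Xi (Λ : ℂ → ℂ) (z : ℂ) : ℂ := Λ (1 + I * z)

/-- Weil's quadratic form of `L(E, s)` on the functions supported in `[-r, r]`: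
`(1/π) ∫ (log (√N / 2π) + Re ψ(1 + i x)) |g^(x)|² dx`, minus twice the real part of the sum over `n ≤ e^(2 r)` of
`t(n)/n ∫ g(x + log n) conj g(x) dx`, where `-L'/L(s) = ∑ t(n) n^(-s)` (`t = lder c`, `c` the coefficients
of `L(E, s)`). -/
noncomputable def W {N : ℕ} (f : CuspForm (Gamma0 N : Subgroup (GL (Fin 2) ℝ)) 2) (r : ℝ) (g : ℝ → ℂ) : ℝ :=
  1 / Real.pi * (∫ x : ℝ, (Real.log (Real.sqrt N / (2 * Real.pi)) + (digamma (1 + x * I)).re) * ‖F g x‖ ^ 2) -
    2 * (∑ n ∈ Finset.Icc 1 ⌊Real.exp (2 * r)⌋₊, ((lder (fun m => (coef f m).re) n / n : ℝ) : ℂ) *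
      ∫ x : ℝ, g (x + Real.log n) * conj (g x)).re

section

variable {a b : ℤ} {N : ℕ} [NeZero N] {f : CuspForm (Gamma0 N : Subgroup (GL (Fin 2) ℝ)) 2} {w : ℝ}

omit [NeZero N] in
lemma isNewf (hf : IsFormOf a b N f w) : W388.IsNewf N 2 f w where
  one := hf.one
  real := hf.real
  mul := hf.mul
  pow := fun p j hp => by
    have h := hf.pow p j hp
    have e : (p : ℂ) ^ ((2 : ℤ) - 1) = (p : ℂ) := by norm_num
    rw [e]
    exact h
  sign := hf.sign
  fricke := fun τ τ' h => by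
    rw [hf.fricke τ τ' h]
    have hN : ((Real.sqrt N : ℝ) : ℂ) ^ 2 = (N : ℂ) := by
      rw [← Complex.ofReal_pow, Real.sq_sqrt (Nat.cast_nonneg N)]
      simp
    have e : (((Real.sqrt N : ℝ) : ℂ) * (τ : ℂ) / Complex.I) ^ (2 : ℤ) = -((N : ℂ) * (τ : ℂ) ^ 2) := by
      rw [zpow_ofNat, div_pow, mul_pow, hN, Complex.I_sq]
      ring
    rw [e]
    ring

omit [NeZero N] in
lemma W_eq (r : ℝ) (g : ℝ → ℂ) :
    W f r g = Pool.Agent.Run7.h114.CA.HkT.W ((2 : ℕ) : ℝ) N (fun n => ((qExpansion 1 f).coeff n).re) r g := by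
  unfold W Pool.Agent.Run7.h114.CA.HkT.W
  have h1 : ((((2 : ℕ) : ℝ) : ℂ) / 2) = 1 := by norm_num
  have h2 : (((2 : ℕ) : ℝ) / 2) = 1 := by norm_num
  rw [h1, h2]
  simp only [Real.rpow_one]
  rfl

end

/-- **The theorem.** For every elliptic curve over `ℚ` (of any rank and any root number) with its newform: the completed
L-function `Λ` exists and is unique, it has the functional equation; the Riemann hypothesis for it says that all zeros
of `Ξ` are real; windows without zeros of `Ξ` exist; and for all of them the statement holds for `Ξ`, with degree `2` and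
conductor `N`, and for Weil's forms `W f`. -/
theorem result (a b : ℤ) (N : ℕ) [NeZero N] (f : CuspForm (Gamma0 N : Subgroup (GL (Fin 2) ℝ)) 2) (w : ℝ)
    (_ : 4 * a ^ 3 + 27 * b ^ 2 ≠ 0) (hf : IsFormOf a b N f w) :
    ∃ Λ : ℂ → ℂ, IsCompleted f Λ ∧ (∀ Λ' : ℂ → ℂ, IsCompleted f Λ' → Λ' = Λ) ∧ (∀ s : ℂ, Λ (2 - s) = w * Λ s) ∧
      ((∀ s : ℂ, Λ s = 0 → s.re = 1) ↔ RealZeros (Xi Λ)) ∧
      (∃ S : Set ℝ, Window S ∧ ∀ t : ℝ, t ∈ S → Xi Λ t ≠ 0) ∧
      ∀ S : Set ℝ, Window S → (∀ t : ℝ, t ∈ S → Xi Λ t ≠ 0) → Full (Xi Λ) 2 N (W f) S := by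
  have hn := isNewf hf
  obtain ⟨L, h1, h2, C, h3, h4, h5, h6⟩ := Pool.Agent.Run7.h114.CA.EQ.lfun_nf (k := 2) (f := f) (by norm_num) hn
  have hX : Xi (Pool.Agent.Run7.h114.CA.EQ.Lam (k := 2) f) =
      fun z => Pool.Agent.Run7.h114.CA.EQ.Lam (k := 2) f (((2 : ℕ) : ℂ) / 2 + I * z) := by
    funext z
    unfold Xi
    congr 2
    norm_num
  have hXz : ∀ z, L.X (1 / 2 + I * z) = C * Xi (Pool.Agent.Run7.h114.CA.EQ.Lam (k := 2) f) z := by
    intro z
    rw [hX]
    exact h4 z
  have hfe : ∀ z, Xi (Pool.Agent.Run7.h114.CA.EQ.Lam (k := 2) f) (-z) =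
      (w : ℂ) * Xi (Pool.Agent.Run7.h114.CA.EQ.Lam (k := 2) f) z := by
    intro z
    rw [hX]
    exact h5 z
  have hpar : (∀ z, Xi (Pool.Agent.Run7.h114.CA.EQ.Lam (k := 2) f) (-z) =
      Xi (Pool.Agent.Run7.h114.CA.EQ.Lam (k := 2) f) z) ∨
      ∀ z, Xi (Pool.Agent.Run7.h114.CA.EQ.Lam (k := 2) f) (-z) =
        -Xi (Pool.Agent.Run7.h114.CA.EQ.Lam (k := 2) f) z := by
    rcases hf.sign with h | h
    · left
      intro z
      rw [hfe, h, Complex.ofReal_one, one_mul]
    · right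
      intro z
      rw [hfe, h, Complex.ofReal_neg, Complex.ofReal_one, neg_one_mul]
  refine ⟨Pool.Agent.Run7.h114.CA.EQ.Lam (k := 2) f,
    ⟨Pool.Agent.Run7.h114.CA.EQ.Lam_diff (k := 2) (by norm_num) hn, fun s hs => ?_⟩, fun Λ' h => ?_, fun s => ?_,
    ?_, ?_, fun S hS hno => ?_⟩
  · exact Pool.Agent.Run7.h114.CA.EQ.Lam_ser (k := 2) (by norm_num) hn s (by norm_num; exact hs)
  · have ha1 : AnalyticOnNhd ℂ Λ' Set.univ := fun z _ => h.1.analyticAt z
    have ha2 : AnalyticOnNhd ℂ (Pool.Agent.Run7.h114.CA.EQ.Lam (k := 2) f) Set.univ := fun z _ =>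
      (Pool.Agent.Run7.h114.CA.EQ.Lam_diff (k := 2) (by norm_num) hn).analyticAt z
    refine ha1.eq_of_eventuallyEq ha2 (z₀ := 3) ?_
    have h3 : ∀ᶠ z : ℂ in nhds (3 : ℂ), 2 < z.re :=
      (Complex.continuous_re.tendsto _).eventually (lt_mem_nhds (by norm_num))
    filter_upwards [h3] with z hz
    rw [h.2 z hz]
    exact (Pool.Agent.Run7.h114.CA.EQ.Lam_ser (k := 2) (by norm_num) hn z (by norm_num; exact hz)).symm
  · have h := hfe (-I * (s - 1))
    unfold Xi at h
    have e1 : (1 : ℂ) + I * -(-I * (s - 1)) = 2 - s := by linear_combination (s - 1) * Complex.I_mul_I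
    have e2 : (1 : ℂ) + I * (-I * (s - 1)) = s := by linear_combination (-(s - 1)) * Complex.I_mul_I
    rwa [e1, e2] at h
  · constructor
    · intro h z hz
      have h1 := h _ hz
      rw [Complex.add_re, Complex.one_re, Complex.I_mul_re] at h1
      linarith
    · intro h s hs
      have e2 : (1 : ℂ) + I * (-I * (s - 1)) = s := by linear_combination (-(s - 1)) * Complex.I_mul_I
      have h1 := h (-I * (s - 1)) (by
        unfold Xi
        rw [e2]
        exact hs)
      simp at h1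
      linarith
  · exact Pool.Agent.Run7.h114.CA.WS.exists_window L _ h3 hXz hpar
  · have h := Pool.Agent.Run7.h336.CB.S.full L _ h3 hXz hpar (W f) (fun r hr g hg => by
      rw [W_eq]
      exact h6 r hr g hg) hS hno
    rw [h1, h2] at h
    exact h

end Pool.Agent.Results.MP_553913_nt.GroundStatesConverge
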