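import Pool.Agent.Run7.h456.Win.EC

/-!
# One short window of primes decides the Riemann hypothesis for an elliptic curve

Let `E : y² = x³ + a x + b` be an elliptic curve over `ℚ` of conductor `N`, `χ` a primitive Dirichlet character of
conductor `q` prime to `N` (for example `χ = 1`), `Λ(s) = Λ(E, χ, s)` the completed L-function, and
`S(x, y) = ∑ χ(p) a_p`, the sum over the primes `p` in `(x, y]`. We prove without any hypothesis:

* (large values in every short window) if `Λ(ρ) = 0` and `η = |Re ρ - 1| > 0`, then for all `μ < 1 + η`,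
  `τ < η / (1 - η)` and ALL large `X` there are `x ≤ y` in `[X, X (1 + (log X)^(-τ))]` with `|S(x, y)| > X^μ`;
* (criterion) for `0 ≤ θ ≤ 1/2` all zeros of `Λ` are at distance at most `θ` from the line `Re s = 1` if and only if for
  every `ε > 0` there are ARBITRARILY LARGE `X` such that `|S(x, y)| ≤ X^(1 + θ + ε)` for all `x ≤ y` in
  `[X, X (1 + (log X)^(-θ/(1 - θ) - ε))]`; and in this case one has, for every `ε > 0` and all large `X`, this bound
  for all `x ≤ y` in `[X, 2 X]`.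

For `θ = 0` this is the Riemann hypothesis: it is decided by one short window `[X, X (1 + (log X)^(-ε))]` for each
`ε > 0`, which may be arbitrarily far away and may depend on `ε`.

Proof (modules `Pool.Agent.Run7.h456.Win`). The sums of the numbers `χ(p) a_p log p` against narrow Gaussians centred at
`exp Y`, `Y = m h, (m + 1) h, ..., (m + n) h` (`h` a small step, `m h` slightly larger than `log X`), are power sums of at
most `n` numbers `e^{h ρ}`, up to a small error; here `ρ` runs over the zeros with `Re ρ ≥ 1 + θ + 2 g`, `|Im ρ| ≤ H`, where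
`H = (log X)^{1 + τ}` has to be so large in order that the Gaussians are concentrated on the window. The number of these
zeros is still less than `(log X)^{1 - ε}`, by the zero density theorem `N(σ, T) ≪ T^{1 - c (σ - 1)} log T` for every
`c < 1` (starting modules `Pool.Agent.Y24.GL`). An interpolation argument (a contour integral in place of Turan's power
sum method) separates the zeros in `Re s ≥ 1 + θ + 4 g` from the others with a loss `exp (o (log X))`, and their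
contribution at exponent zero has a positive real part. The L-functions of the twists are in the starting modules
`Pool.Agent.R838.TW`.
-/

set_option autoImplicit false

open Complex UpperHalfPlane MatrixGroups CongruenceSubgroup

namespace Pool.Agent.Results.MP_553913_nt.OneShortWindow

/-- The coefficient `a_p` of `E : y² = x³ + a x + b` at a prime `p ∤ 2 (4a³ + 27b²)`: `p` minus the
number of pairs `(x, y)` modulo `p` with `y² ≡ x³ + a x + b (mod p)`. -/
noncomputable def ap (a b : ℤ) (p : ℕ) : ℤ :=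
  (p : ℤ) - (((Finset.range p ×ˢ Finset.range p).filter
    (fun xy : ℕ × ℕ => (p : ℤ) ∣ (xy.2 : ℤ) ^ 2 -
      ((xy.1 : ℤ) ^ 3 + a * (xy.1 : ℤ) + b))).card : ℤ)

/-- The `n`-th Fourier coefficient of `f`. -/
noncomputable def coef {N : ℕ} (f : CuspForm (Gamma0 N : Subgroup (GL (Fin 2) ℝ)) 2) (n : ℕ) : ℂ :=
  (qExpansion 1 f).coeff n

/-- `f ∈ S_2(Γ₀(N))` is the newform of the elliptic curve `E : y² = x³ + a x + b` of conductor `N` and
root number `w`: the Fourier coefficients `c(n)` of `f` are real with `c(1) = 1`, they satisfy the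
Hecke relations `c(mn) = c(m) c(n)` for coprime `m`, `n` and `c(p^(j+2)) = c(p) c(p^(j+1)) - p c(p^j)`
(without the last term if `p ∣ N`), `f(-1/(Nτ)) = -w N τ² f(τ)`, `c(p) = a_p(E)` for all primes
`p ∤ 2 (4a³ + 27b²)`, `|c(p)| ≤ 2 √p` for all `p ∤ N` (Hasse) and `c(p) = 0, 1, -1` for `p ∣ N`.
By the modularity theorem (Wiles, Taylor-Wiles, Breuil-Conrad-Diamond-Taylor) it exists for every `E`. -/
structure IsFormOf (a b : ℤ) (N : ℕ) (f : CuspForm (Gamma0 N : Subgroup (GL (Fin 2) ℝ)) 2) (w : ℝ) :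
    Prop where
  one : coef f 1 = 1
  real : ∀ n, (coef f n).im = 0
  mul : ∀ m n : ℕ, Nat.Coprime m n → coef f (m * n) = coef f m * coef f n
  pow : ∀ p j : ℕ, p.Prime → coef f (p ^ (j + 2)) = coef f p * coef f (p ^ (j + 1)) -
      (if p ∣ N then 0 else (p : ℂ) * coef f (p ^ j))
  sign : w = 1 ∨ w = -1
  fricke : ∀ τ τ' : ℍ, (τ' : ℂ) * ((N : ℂ) * (τ : ℂ)) = -1 →
    f τ' = -(w : ℂ) * (N : ℂ) * (τ : ℂ) ^ 2 * f τ
  points : ∀ p : ℕ, p.Prime → ¬ (p : ℤ) ∣ 2 * (4 * a ^ 3 + 27 * b ^ 2) → coef f p = (ap a b p : ℂ)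
  good : ∀ p : ℕ, p.Prime → ¬ p ∣ N → ‖coef f p‖ ≤ 2 * Real.sqrt p
  bad : ∀ p : ℕ, p.Prime → p ∣ N → coef f p = 0 ∨ coef f p = 1 ∨ coef f p = -1

/-- `Λ` is the completed L-function of `E` twisted by the Dirichlet character `χ` modulo `q`: it is entire and
`Λ(s) = (√N q / 2π)^s Γ(s) ∑ χ(n) c(n) n^(-s)` for `Re s > 2`. -/
def IsCompleted {N : ℕ} (f : CuspForm (Gamma0 N : Subgroup (GL (Fin 2) ℝ)) 2) {q : ℕ} (χ : DirichletCharacter ℂ q)
    (Λ : ℂ → ℂ) : Prop :=
  Differentiable ℂ Λ ∧ ∀ s : ℂ, 2 < s.re →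
    Λ s = ((Real.sqrt N * q / (2 * Real.pi) : ℝ) : ℂ) ^ s * Complex.Gamma s *
      ∑' n : ℕ, coef f (n + 1) * χ ((n + 1 : ℕ) : ZMod q) * ((n + 1 : ℕ) : ℂ) ^ (-s)

/-- The sum of `χ(p) a_p(E)` over the primes `x < p ≤ y`. -/
noncomputable def S (a b : ℤ) {q : ℕ} (χ : DirichletCharacter ℂ q) (x y : ℝ) : ℂ :=
  ∑ p ∈ (Finset.Ioc ⌊x⌋₊ ⌊y⌋₊).filter Nat.Prime, χ (p : ZMod q) * (ap a b p : ℂ)

/-- `|S(x, y)| ≤ X^μ` for all `x ≤ y` in the window `[X, X (1 + (log X)^(-τ))]`. -/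
def Small (a b : ℤ) {q : ℕ} (χ : DirichletCharacter ℂ q) (μ τ X : ℝ) : Prop :=
  ∀ x y : ℝ, X ≤ x → x ≤ y → y ≤ X * (1 + (Real.log X) ^ (-τ)) → ‖S a b χ x y‖ ≤ X ^ μ

open Pool.Agent.Run7.h456.Win

/-- the coefficients of `S` -/
noncomputable def sq (a b : ℤ) {q : ℕ} (χ : DirichletCharacter ℂ q) (n : ℕ) : ℂ :=
  if n.Prime then χ (n : ZMod q) * (ap a b n : ℂ) else 0

theorem small_iff (a b : ℤ) {q : ℕ} (χ : DirichletCharacter ℂ q) (μ τ X : ℝ) :
    Small a b χ μ τ X ↔ Win1 0 (sq a b χ) μ τ X := by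
  unfold Small Win1 S sq
  simp only [Nat.cast_zero, zero_mul, sub_zero, Finset.sum_filter]

/-- **Main theorem.** See the head of the file. -/
theorem result (a b : ℤ) (N : ℕ) [NeZero N] (f : CuspForm (Gamma0 N : Subgroup (GL (Fin 2) ℝ)) 2) (w : ℝ)
    (hΔ : 4 * a ^ 3 + 27 * b ^ 2 ≠ 0) (hf : IsFormOf a b N f w)
    (q : ℕ) [NeZero q] (χ : DirichletCharacter ℂ q) (hχ : χ.IsPrimitive) (hco : Nat.Coprime q N) :
    ∃ Λ : ℂ → ℂ, IsCompleted f χ Λ ∧ (∀ Λ', IsCompleted f χ Λ' → Λ' = Λ) ∧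
      (∀ ρ : ℂ, Λ ρ = 0 → ρ.re ≠ 1 → ∀ μ τ : ℝ, μ < 1 + |ρ.re - 1| → τ < |ρ.re - 1| / (1 - |ρ.re - 1|) →
        ∃ X₀ : ℝ, ∀ X : ℝ, X₀ ≤ X → ∃ x y : ℝ, X ≤ x ∧ x ≤ y ∧ y ≤ X * (1 + (Real.log X) ^ (-τ)) ∧
          X ^ μ < ‖S a b χ x y‖) ∧
      (∀ θ : ℝ, 0 ≤ θ → θ ≤ 1 / 2 →
        ((∀ ρ : ℂ, Λ ρ = 0 → |ρ.re - 1| ≤ θ) ↔ ∀ ε : ℝ, 0 < ε → ∀ X₀ : ℝ, ∃ X : ℝ, X₀ ≤ X ∧
          Small a b χ (1 + θ + ε) (θ / (1 - θ) + ε) X) ∧
        ((∀ ρ : ℂ, Λ ρ = 0 → |ρ.re - 1| ≤ θ) ↔ ∀ ε : ℝ, 0 < ε → ∃ X₀ : ℝ, ∀ X : ℝ, X₀ ≤ X →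
          ∀ x y : ℝ, X ≤ x → x ≤ y → y ≤ 2 * X → ‖S a b χ x y‖ ≤ X ^ (1 + θ + ε))) := by
  have hf' : Pool.Agent.W169.HF.IsForm N f w :=
    { one := hf.one
      real := hf.real
      mul := hf.mul
      pow := hf.pow
      sign := hf.sign
      fricke := hf.fricke
      good := hf.good
      bad := fun p hp hpN => by
        have h1 : (1 : ℝ) ≤ Real.sqrt p := by
          rw [Real.one_le_sqrt]
          exact_mod_cast hp.one_le
        have h2 : ‖coef f p‖ ≤ 1 := by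
          rcases hf.bad p hp hpN with h | h | h <;> simp [h]
        exact h2.trans h1 }
  obtain ⟨Λ, F, c, k1, k2, ⟨W, hW, hfe⟩, hz, hD, hcp⟩ := ec_core (χ := χ) hf'
    (fun p hp hpN => by
      have : ‖coef f p‖ ≤ 1 := by
        rcases hf.bad p hp hpN with h | h | h <;> simp [h]
      exact this) hχ hco
  -- symmetry
  have hsym : ∀ s : ℂ, Λ s = 0 → Λ (2 - (starRingEnd ℂ) s) = 0 := by
    intro s hs
    rw [hfe, Complex.conj_conj, hs, map_zero, mul_zero]
  -- a zero gives a zero on the right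
  have hright : ∀ ρ : ℂ, Λ ρ = 0 → ∃ r : ℂ, F r = 0 ∧ r.re = 1 / 2 + |ρ.re - 1| := by
    intro ρ hρ
    rcases le_or_gt 1 ρ.re with h1 | h1
    · refine ⟨ρ - 1 / 2, (hz ρ (by linarith)).1 hρ, ?_⟩
      rw [abs_of_nonneg (by linarith)]
      have : (ρ - 1 / 2).re = ρ.re - 1 / 2 := by simp
      rw [this]
      ring
    · have hre : (2 - (starRingEnd ℂ) ρ).re = 2 - ρ.re := by simp
      refine ⟨2 - (starRingEnd ℂ) ρ - 1 / 2, (hz _ (by rw [hre]; linarith)).1 (hsym ρ hρ), ?_⟩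
      rw [abs_of_neg (by linarith)]
      have : (2 - (starRingEnd ℂ) ρ - 1 / 2).re = (2 - (starRingEnd ℂ) ρ).re - 1 / 2 := by simp
      rw [this, hre]
      ring
  have hzf : ∀ θ : ℝ, 0 ≤ θ → ((∀ ρ : ℂ, Λ ρ = 0 → |ρ.re - 1| ≤ θ) ↔ ∀ r : ℂ, F r = 0 → r.re ≤ 1 / 2 + θ) := by
    intro θ hθ
    constructor
    · intro h r hr
      by_contra hc
      rw [not_le] at hc
      have hre : (r + 1 / 2).re = r.re + 1 / 2 := by simp
      have h1 : Λ (r + 1 / 2) = 0 := (hz _ (by rw [hre]; linarith)).2 (by rw [add_sub_cancel_right]; exact hr)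
      have h2 := h _ h1
      rw [hre] at h2
      have h3 := le_abs_self (r.re + 1 / 2 - 1)
      linarith
    · intro h ρ hρ
      obtain ⟨r, hr1, hr2⟩ := hright ρ hρ
      have := h r hr1
      linarith
  -- the coefficients
  have ha : ∀ n : ℕ, (2 * (4 * a ^ 3 + 27 * b ^ 2)).natAbs < n →
      sq a b χ n = (((n : ℝ) ^ (1 / 2 : ℝ) / Real.log n : ℝ) : ℂ) * ((if n.Prime then c n else 0) - ((0 : ℕ) : ℂ)) := by
    intro n hn
    unfold sq
    by_cases hp : n.Prime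
    · have hndvd : ¬ (n : ℤ) ∣ 2 * (4 * a ^ 3 + 27 * b ^ 2) := by
        intro hdvd
        have h1 := Int.natAbs_dvd_natAbs.2 hdvd
        rw [Int.natAbs_natCast] at h1
        have h2 := Nat.le_of_dvd (Int.natAbs_pos.2 (mul_ne_zero two_ne_zero hΔ)) h1
        omega
      have h3 : (ap a b n : ℂ) = Pool.Agent.W169.HF.coef f n := (hf.points n hp hndvd).symm
      have hlog : ((Real.log n : ℝ) : ℂ) ≠ 0 := by
        have : 0 < Real.log n := Real.log_pos (by exact_mod_cast hp.one_lt)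
        rw [Complex.ofReal_ne_zero]
        exact this.ne'
      rw [if_pos hp, if_pos hp, hcp n hp, h3, lamf_coef hf' hp.pos, Nat.cast_zero, sub_zero, ← Real.sqrt_eq_rpow,
        Complex.ofReal_div]
      field_simp
    · rw [if_neg hp, if_neg hp]
      simp
  refine ⟨Λ, ⟨k1, fun s hs => ?_⟩, fun Λ' h' => ?_, ?_, ?_⟩
  · rw [k2 s (by linarith)]
    rfl
  · refine Pool.Agent.R838.TW.uniq (G := fun s => Pool.Agent.W355.UN.facE f χ s) k1 h'.1 ⟨3 / 2, k2⟩
      ⟨2, fun s hs => ?_⟩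
    rw [h'.2 s hs]
    rfl
  · intro ρ hρ hne μ τ hμ hτ
    obtain ⟨r, hr1, hr2⟩ := hright ρ hρ
    have hpos : 0 < |ρ.re - 1| := abs_pos.2 (sub_ne_zero.2 hne)
    have hr3 := hD.ld.re_le hr1
    have hw : wid r.re = |ρ.re - 1| / (1 - |ρ.re - 1|) := by
      unfold wid
      rw [hr2]
      congr 1 <;> ring
    have h1 := hD.omega (ν := 1 / 2) (μ := μ) (τ := τ) (by norm_num) ha hr1 (by linarith) (by rw [hr2]; linarith)
      (by rw [hw]; exact hτ)
    obtain ⟨X₀, hX₀⟩ := Filter.eventually_atTop.1 h1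
    refine ⟨X₀, fun X hX => ?_⟩
    have h2 := hX₀ X hX
    rw [← small_iff] at h2
    unfold Small at h2
    push Not at h2
    obtain ⟨x, y, h3, h4, h5, h6⟩ := h2
    exact ⟨x, y, h3, h4, h5, h6⟩
  · intro θ hθ hθ1
    have hcrit := hD.crit (ν := 1 / 2) (θ := 1 / 2 + θ) (by linarith) (by linarith) (by norm_num) ha
    have hw : wid (1 / 2 + θ) = θ / (1 - θ) := by
      unfold wid
      congr 1 <;> ring
    rw [hw, show (1 / 2 + θ + 1 / 2 : ℝ) = 1 + θ by ring] at hcrit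
    rw [hzf θ hθ]
    refine ⟨hcrit.1.trans ?_, hcrit.2.trans ?_⟩
    · refine forall₂_congr fun ε _ => ?_
      rw [Filter.frequently_atTop]
      simp only [small_iff]
    · refine forall₂_congr fun ε _ => ?_
      rw [Filter.eventually_atTop]
      refine exists_congr fun X₀ => forall₂_congr fun X _ => ?_
      rw [← small_iff]
      unfold Small
      rw [neg_zero, Real.rpow_zero, show X * (1 + 1) = 2 * X by ring]

end Pool.Agent.Results.MP_553913_nt.OneShortWindow
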